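import Mathlib
import Pool.Agent.Results.MP_e2d93f_co.AllK

/-!
# Semi-arc `k`-visibility graphs: adding a short arc
-/

set_option autoImplicit false

open Filter Topology

namespace Pool.Agent.V7H84.SA

open Pool.Agent.Results.MP_e2d93f_co.AllK

lemma pt_re (t φ : ℝ) : (pt t φ).re = t * Real.cos φ := by
  unfold pt
  rw [Complex.re_ofReal_mul, Complex.exp_ofReal_mul_I_re]

lemma pt_im (t φ : ℝ) : (pt t φ).im = t * Real.sin φ := by
  unfold pt
  rw [Complex.im_ofReal_mul, Complex.exp_ofReal_mul_I_im]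

lemma pt_norm (t φ : ℝ) : ‖pt t φ‖ = |t| := by
  unfold pt
  rw [norm_mul, Complex.norm_exp_ofReal_mul_I, mul_one, Complex.norm_real, Real.norm_eq_abs]

lemma pt_dir {x ψ ρ φ : ℝ} (hρ : 0 < ρ) (h : pt x ψ = pt ρ φ) : ∃ l : ℤ, (l : ℝ) * Real.pi = ψ - φ := by
  have h1 := congrArg Complex.re h
  have h2 := congrArg Complex.im h
  have h3 := congrArg norm h
  rw [pt_re, pt_re] at h1
  rw [pt_im, pt_im] at h2
  rw [pt_norm, pt_norm, abs_of_pos hρ] at h3
  have hx : x ≠ 0 := by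
    rintro rfl
    rw [abs_zero] at h3
    exact hρ.ne h3
  have h4 : x * Real.sin (ψ - φ) = 0 := by
    rw [Real.sin_sub]
    linear_combination Real.cos φ * h2 - Real.sin φ * h1
  exact Real.sin_eq_zero_iff.1 ((mul_eq_zero.1 h4).resolve_left hx)

lemma side_mono {s a b c d : ℝ} (h1 : a ≤ c) (h2 : d ≤ b) : side s c d ⊆ side s a b := by
  rintro z ⟨φ, hφ, rfl⟩
  exact ⟨φ, ⟨h1.trans hφ.1, hφ.2.trans h2⟩, rfl⟩

lemma cone_mono {s t a b c d : ℝ} (h1 : a ≤ c) (h2 : d ≤ b) : cone s t c d ⊆ cone s t a b := by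
  rintro z ⟨φ, hφ, u, hu, rfl⟩
  exact ⟨φ, ⟨h1.trans hφ.1, hφ.2.trans h2⟩, u, hu, rfl⟩

lemma cone_symm (s t a b : ℝ) : cone t s a b = cone s t a b := by
  unfold cone
  rw [Set.uIcc_comm]

/-- the other arcs which meet the cone -/
def others {V : Type} (A : V → Arc) (u v : V) (C : Set ℂ) : Set V :=
  {w : V | w ≠ u ∧ w ≠ v ∧ (C ∩ (A w).carrier).Nonempty}

lemma kv_symm {V : Type} {k : ℕ} {A : V → Arc} {u v : V} (h : KVisible k A u v) :
    KVisible k A v u := by
  obtain ⟨s, t, a, b, hs, ht, hst, hab, hba, h1, h2, h3⟩ := h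
  refine ⟨t, s, a, b, ht, hs, hst.symm, hab, hba, h2, h1, ?_⟩
  rw [cone_symm]
  refine (Set.encard_le_encard ?_).trans h3
  rintro w ⟨h4, h5, h6⟩
  exact ⟨h5, h4, h6⟩

/-- The graph of `k`-visibility. -/
def vg {V : Type} (k : ℕ) (A : V → Arc) : SimpleGraph V where
  Adj u v := u ≠ v ∧ KVisible k A u v
  symm := ⟨fun _ _ h => ⟨h.1.symm, kv_symm h.2⟩⟩
  loopless := ⟨fun _ h => h.1 rfl⟩

/-- Representations by disjoint semi-arcs of positive length. -/
structure Rep {V : Type} (A : V → Arc) : Prop where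
  zero : ∀ v, (A v).a = 0
  disj : ∀ u v, u ≠ v → Disjoint (A u).carrier (A v).carrier
  pos : ∀ v, 0 < (A v).b

lemma Rep.isSemiArc {V : Type} {A : V → Arc} (h : Rep A) (k : ℕ) : IsSemiArcVisibility k (vg k A) :=
  ⟨A, h.zero, h.disj, fun _ _ huv => ⟨fun h => h.2, fun h => ⟨huv, h⟩⟩⟩

lemma mem_carrier_zero {V : Type} {A : V → Arc} (h : Rep A) (v : V) :
    pt (A v).r 0 ∈ (A v).carrier := ⟨0, ⟨(h.zero v).le, (h.pos v).le⟩, rfl⟩

lemma Rep.inj {V : Type} {A : V → Arc} (h : Rep A) : Function.Injective fun v => (A v).r := by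
  intro u v huv
  by_contra hne
  have h1 := mem_carrier_zero h u
  have h2 := mem_carrier_zero h v
  simp only at huv
  rw [huv] at h1
  exact Set.disjoint_left.1 (h.disj u v hne) h1 h2

section sort

variable {V W : Type} {k : ℕ} {A : V → Arc}

lemma kv_comp (σ : W ≃ V) {u v : W} (h : KVisible k A (σ u) (σ v)) :
    KVisible k (fun w => A (σ w)) u v := by
  obtain ⟨s, t, a, b, hs, ht, hst, hab, hba, h1, h2, h3⟩ := h
  refine ⟨s, t, a, b, hs, ht, hst, hab, hba, h1, h2, ?_⟩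
  refine le_trans ?_ h3
  rw [← σ.injective.encard_image]
  apply Set.encard_le_encard
  rintro _ ⟨w, ⟨h4, h5, h6⟩, rfl⟩
  exact ⟨σ.injective.ne h4, σ.injective.ne h5, h6⟩

lemma kv_comp_iff (σ : W ≃ V) {u v : W} :
    KVisible k (fun w => A (σ w)) u v ↔ KVisible k A (σ u) (σ v) := by
  refine ⟨fun h => ?_, kv_comp σ⟩
  have := kv_comp (A := fun w => A (σ w)) σ.symm (u := σ u) (v := σ v) (k := k) (by simpa using h)
  simpa using this

/-- reindexing is an isomorphism -/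
def isoV (σ : W ≃ V) : vg k (fun w => A (σ w)) ≃g vg k A where
  toEquiv := σ
  map_rel_iff' := by
    intro u v
    show (σ u ≠ σ v ∧ KVisible k A (σ u) (σ v)) ↔ (u ≠ v ∧ KVisible k (fun w => A (σ w)) u v)
    rw [kv_comp_iff, σ.injective.ne_iff]

lemma ncard_comp (σ : W ≃ V) :
    (vg k (fun w => A (σ w))).edgeSet.ncard = (vg k A).edgeSet.ncard := by
  rw [← Nat.card_coe_set_eq, ← Nat.card_coe_set_eq]
  exact Nat.card_congr (isoV (k := k) (A := A) σ).mapEdgeSet

end sort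

lemma sorted {n k : ℕ} {A : Fin n → Arc} (h : Rep A) : ∃ A' : Fin n → Arc, Rep A' ∧
    StrictMono (fun v => (A' v).r) ∧ (vg k A').edgeSet.ncard = (vg k A).edgeSet.ncard := by
  let σ := Tuple.sort fun v => (A v).r
  refine ⟨fun w => A (σ w), ⟨fun v => h.zero _, fun u v huv => h.disj _ _ (σ.injective.ne huv),
    fun v => h.pos _⟩, ?_, ncard_comp σ⟩
  exact (Tuple.monotone_sort fun v => (A v).r).strictMono_of_injective
    (h.inj.comp σ.injective)

/-- the pair `u`, `v` is visible in directions which avoid `[0, ε]` modulo `π` -/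
def Good {V : Type} (k : ℕ) (A : V → Arc) (ε : ℝ) (u v : V) : Prop :=
  ∃ (s t c d : ℝ) (m : ℤ), s ≠ 0 ∧ t ≠ 0 ∧ s ≠ t ∧ c < d ∧ (m : ℝ) * Real.pi + ε < c ∧
    d < ((m : ℝ) + 1) * Real.pi ∧ side s c d ⊆ (A u).carrier ∧ side t c d ⊆ (A v).carrier ∧
    (others A u v (cone s t c d)).encard ≤ k

lemma good_of {V : Type} {k : ℕ} {A : V → Arc} {u v : V} (h : KVisible k A u v) :
    ∀ᶠ ε : ℝ in 𝓝[>] 0, Good k A ε u v := by
  obtain ⟨s, t, a, b, hs, ht, hst, hab, hba, h1, h2, h3⟩ := h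
  have hpi := Real.pi_pos
  set m : ℤ := ⌊a / Real.pi⌋ with hm
  have hm1 : (m : ℝ) * Real.pi ≤ a := by
    have := Int.floor_le (a / Real.pi)
    rwa [← hm, le_div_iff₀ hpi] at this
  have hm2 : a < ((m : ℝ) + 1) * Real.pi := by
    have := Int.lt_floor_add_one (a / Real.pi)
    rwa [← hm, div_lt_iff₀ hpi] at this
  set e := min b (((m : ℝ) + 1) * Real.pi) with he
  have he1 : a < e := lt_min hab hm2
  have he2 : e ≤ b := min_le_left _ _
  have he3 : e ≤ ((m : ℝ) + 1) * Real.pi := min_le_right _ _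
  have hc : 0 < a + (e - a) / 3 - (m : ℝ) * Real.pi := by linarith
  filter_upwards [Ioo_mem_nhdsGT hc] with ε hε
  refine ⟨s, t, a + (e - a) / 3, a + 2 * (e - a) / 3, m, hs, ht, hst, by linarith, by linarith [hε.2],
    by linarith, (side_mono (by linarith) (by linarith)).trans h1,
    (side_mono (by linarith) (by linarith)).trans h2, (Set.encard_le_encard ?_).trans h3⟩
  rintro w ⟨h4, h5, h6⟩
  exact ⟨h4, h5, h6.mono (Set.inter_subset_inter_left _ (cone_mono (by linarith) (by linarith)))⟩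

/-- the new arc -/
noncomputable def short (ρ ε : ℝ) (hρ : 0 < ρ) (hε : 0 < ε) (hε' : ε < Real.pi) : Arc where
  r := ρ
  a := 0
  b := ε
  hr := hρ
  ha0 := le_rfl
  ha1 := by have := Real.pi_pos; linarith
  hab := hε.le
  hb := by have := Real.pi_pos; linarith

/-- the arcs with the new one -/
noncomputable def addArc {n : ℕ} (A : Fin n → Arc) (W : Arc) : Fin (n + 1) → Arc :=
  fun i => Fin.cases W A i

@[simp] lemma addArc_zero {n : ℕ} (A : Fin n → Arc) (W : Arc) : addArc A W 0 = W := rfl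
@[simp] lemma addArc_succ {n : ℕ} (A : Fin n → Arc) (W : Arc) (i : Fin n) :
    addArc A W i.succ = A i := rfl

lemma keep {n k : ℕ} {A : Fin n → Arc} {ρ ε : ℝ} (hρ : 0 < ρ) (hε : 0 < ε) (hε' : ε < Real.pi)
    {u v : Fin n} (h : Good k A ε u v) :
    KVisible k (addArc A (short ρ ε hρ hε hε')) u.succ v.succ := by
  obtain ⟨s, t, c, d, m, hs, ht, hst, hcd, hc, hd, h1, h2, h3⟩ := h
  refine ⟨s, t, c, d, hs, ht, hst, hcd, by linarith, h1, h2, le_trans ?_ h3⟩
  rw [← (Fin.succ_injective n).encard_image]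
  apply Set.encard_le_encard
  rintro w ⟨h4, h5, z, hz, hz'⟩
  induction w using Fin.cases with
  | zero =>
    exfalso
    obtain ⟨ψ, hψ, x, hx, rfl⟩ := hz
    obtain ⟨φ, hφ, he⟩ := hz'
    simp only [addArc_zero, short] at hφ he
    obtain ⟨l, hl⟩ := pt_dir hρ he
    have hpi := Real.pi_pos
    have e1 : (m : ℝ) * Real.pi < l * Real.pi := by
      rw [hl]; linarith [hψ.1, hφ.2]
    have e2 : (l : ℝ) * Real.pi < ((m : ℝ) + 1) * Real.pi := by
      rw [hl]; linarith [hψ.2, hφ.1]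
    have e3 : (m : ℝ) < l := lt_of_mul_lt_mul_right e1 hpi.le
    have e4 : (l : ℝ) < (m : ℝ) + 1 := lt_of_mul_lt_mul_right e2 hpi.le
    have e5 : m < l := by exact_mod_cast e3
    have e6 : l < m + 1 := by exact_mod_cast e4
    omega
  | succ w =>
    exact ⟨w, ⟨fun h => h4 (by rw [h]), fun h => h5 (by rw [h]), z, hz, hz'⟩, rfl⟩

lemma between {n k : ℕ} {A : Fin n → Arc} (hA : Rep A) {ρ ε : ℝ} (hρ : 0 < ρ) (hε : 0 < ε)
    (hε' : ε < Real.pi) (hb : ∀ v, ε ≤ (A v).b) (i : Fin n) (hi : (A i).r ≠ ρ)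
    (hc : {j : Fin n | j ≠ i ∧ (A j).r ∈ Set.uIcc ρ (A i).r}.encard ≤ k) :
    KVisible k (addArc A (short ρ ε hρ hε hε')) 0 i.succ := by
  have hpi := Real.pi_pos
  refine ⟨ρ, (A i).r, ε / 2, ε, hρ.ne', (A i).hr.ne', hi.symm, by linarith, by linarith, ?_, ?_,
    le_trans ?_ hc⟩
  · rintro z ⟨φ, hφ, rfl⟩
    exact ⟨φ, ⟨by simp only [addArc_zero, short]; linarith [hφ.1], hφ.2⟩, rfl⟩
  · rintro z ⟨φ, hφ, rfl⟩
    exact ⟨φ, ⟨by rw [addArc_succ, hA.zero]; linarith [hφ.1], hφ.2.trans (hb i)⟩, rfl⟩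
  · rw [← (Fin.succ_injective n).encard_image]
    apply Set.encard_le_encard
    rintro w ⟨h4, h5, z, hz, hz'⟩
    induction w using Fin.cases with
    | zero => exact absurd rfl h4
    | succ w =>
      refine ⟨w, ⟨fun h => h5 (by rw [h]), ?_⟩, rfl⟩
      obtain ⟨ψ, hψ, x, hx, rfl⟩ := hz
      obtain ⟨φ, hφ, he⟩ := hz'
      rw [addArc_succ] at he
      have h7 := congrArg norm he
      rw [pt_norm, pt_norm, abs_of_pos (A w).hr] at h7
      have hx0 : 0 < x := by
        rcases Set.mem_uIcc.1 hx with h | h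
        · exact hρ.trans_le h.1
        · exact (A i).hr.trans_le h.1
      rw [abs_of_pos hx0] at h7
      rwa [← h7]

lemma mem_carrier_norm {B : Arc} {z : ℂ} (h : z ∈ B.carrier) : ‖z‖ = B.r := by
  obtain ⟨φ, -, rfl⟩ := h
  rw [pt_norm, abs_of_pos B.hr]

lemma rep_add {n : ℕ} {A : Fin n → Arc} (hA : Rep A) {ρ ε : ℝ} (hρ : 0 < ρ) (hε : 0 < ε)
    (hε' : ε < Real.pi) (hne : ∀ i, (A i).r ≠ ρ) : Rep (addArc A (short ρ ε hρ hε hε')) := by
  have key : ∀ i : Fin n, Disjoint (short ρ ε hρ hε hε').carrier (A i).carrier := fun i => by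
    rw [Set.disjoint_left]
    intro z hz hz'
    have h1 := mem_carrier_norm hz
    have h2 := mem_carrier_norm hz'
    exact hne i (h2.symm.trans h1)
  refine ⟨fun v => ?_, fun u v huv => ?_, fun v => ?_⟩
  · induction v using Fin.cases with
    | zero => rfl
    | succ v => exact hA.zero v
  · induction u using Fin.cases with
    | zero =>
      induction v using Fin.cases with
      | zero => exact absurd rfl huv
      | succ v => exact key v
    | succ u =>
      induction v using Fin.cases with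
      | zero => exact (key u).symm
      | succ v => exact hA.disj u v fun h => huv (by rw [h])
  · induction v using Fin.cases with
    | zero => exact hε
    | succ v => exact hA.pos v

lemma count {n k : ℕ} {A : Fin n → Arc} {B : Fin (n + 1) → Arc} (hn : 2 * k + 2 ≤ n)
    (h1 : ∀ u v : Fin n, KVisible k A u v → KVisible k B u.succ v.succ)
    (h2 : ∀ i : Fin n, (i : ℕ) < 2 * k + 2 → KVisible k B 0 i.succ) :
    (vg k A).edgeSet.ncard + (2 * k + 2) ≤ (vg k B).edgeSet.ncard := by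
  set S1 : Set (Sym2 (Fin (n + 1))) := Sym2.map Fin.succ '' (vg k A).edgeSet with hS1
  set f : Fin (2 * k + 2) → Sym2 (Fin (n + 1)) := fun i => s(0, (Fin.castLE hn i).succ) with hf
  set S2 : Set (Sym2 (Fin (n + 1))) := f '' Set.univ with hS2
  have c1 : S1.ncard = (vg k A).edgeSet.ncard :=
    Set.ncard_image_of_injective _ (Sym2.map.injective (Fin.succ_injective n))
  have hinj : Function.Injective f := by
    intro i j hij
    simp only [hf, Sym2.eq_iff] at hij
    rcases hij with h | h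
    · have := Fin.succ_injective n h.2
      exact Fin.castLE_injective hn this
    · exact absurd h.1.symm (Fin.succ_ne_zero _)
  have c2 : S2.ncard = 2 * k + 2 := by
    rw [hS2, Set.ncard_image_of_injective _ hinj, Set.ncard_univ, Nat.card_fin]
  have hd : Disjoint S1 S2 := by
    rw [Set.disjoint_left]
    rintro _ ⟨e, he, rfl⟩ ⟨i, -, hi⟩
    induction e using Sym2.ind with
    | _ u v =>
      rw [Sym2.map_mk, hf] at hi
      simp only [Sym2.eq_iff] at hi
      rcases hi with h | h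
      · exact absurd h.1.symm (Fin.succ_ne_zero _)
      · exact absurd h.1.symm (Fin.succ_ne_zero _)
  have hsub : S1 ∪ S2 ⊆ (vg k B).edgeSet := by
    rintro x (⟨e, he, rfl⟩ | ⟨i, -, rfl⟩)
    · induction e using Sym2.ind with
      | _ u v =>
        rw [SimpleGraph.mem_edgeSet] at he
        rw [Sym2.map_mk, SimpleGraph.mem_edgeSet]
        exact ⟨(Fin.succ_injective n).ne he.1, h1 u v he.2⟩
    · rw [hf, SimpleGraph.mem_edgeSet]
      exact ⟨(Fin.succ_ne_zero _).symm, h2 _ i.2⟩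
  rw [← c1, ← c2, ← Set.ncard_union_eq hd (Set.toFinite _) (Set.toFinite _)]
  exact Set.ncard_le_ncard hsub (Set.toFinite _)

theorem step {n k : ℕ} {A : Fin n → Arc} (hA : Rep A) (hn : 2 * k + 2 ≤ n) :
    ∃ B : Fin (n + 1) → Arc, Rep B ∧
      (vg k A).edgeSet.ncard + (2 * k + 2) ≤ (vg k B).edgeSet.ncard := by
  obtain ⟨A', hA', hmono, hcard⟩ := sorted (k := k) hA
  rw [← hcard]
  clear hcard hA A
  have hpi := Real.pi_pos
  set i0 : Fin n := ⟨k, by omega⟩ with hi0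
  set i1 : Fin n := ⟨k + 1, by omega⟩ with hi1
  have h01 : (A' i0).r < (A' i1).r := hmono (by rw [hi0, hi1, Fin.mk_lt_mk]; omega)
  set ρ : ℝ := ((A' i0).r + (A' i1).r) / 2 with hρdef
  have hρ : 0 < ρ := by have := (A' i0).hr; have := (A' i1).hr; linarith
  have hρ0 : (A' i0).r < ρ := by linarith
  have hρ1 : ρ < (A' i1).r := by linarith
  have low : ∀ i : Fin n, (i : ℕ) ≤ k → (A' i).r < ρ := fun i hi =>
    (hmono.monotone (show i ≤ i0 from hi)).trans_lt hρ0
  have high : ∀ i : Fin n, k + 1 ≤ (i : ℕ) → ρ < (A' i).r := fun i hi =>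
    hρ1.trans_le (hmono.monotone (show i1 ≤ i from hi))
  have hne : ∀ i, (A' i).r ≠ ρ := fun i => by
    rcases Nat.lt_or_ge k i with h | h
    · exact (high i h).ne'
    · exact (low i h).ne
  -- the length of the new arc
  have ev : ∀ᶠ ε : ℝ in 𝓝[>] 0, ε < Real.pi ∧ (∀ v, ε ≤ (A' v).b) ∧
      (∀ u v, KVisible k A' u v → Good k A' ε u v) ∧ 0 < ε := by
    refine ((?_ : ∀ᶠ ε : ℝ in 𝓝[>] 0, ε < Real.pi).and ((?_ : ∀ᶠ ε : ℝ in 𝓝[>] 0, ∀ v, ε ≤ (A' v).b).and
      ((?_ : ∀ᶠ ε : ℝ in 𝓝[>] 0, ∀ u v, KVisible k A' u v → Good k A' ε u v).and ?_)))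
    · filter_upwards [Ioo_mem_nhdsGT hpi] with ε hε using hε.2
    · rw [eventually_all]
      intro v
      filter_upwards [Ioo_mem_nhdsGT (hA'.pos v)] with ε hε using hε.2.le
    · rw [eventually_all]
      intro u
      rw [eventually_all]
      intro v
      by_cases h : KVisible k A' u v
      · filter_upwards [good_of h] with ε hε _ using hε
      · exact Eventually.of_forall fun ε h' => absurd h' h
    · exact self_mem_nhdsWithin
  obtain ⟨ε, hε', hb, hg, hε⟩ := ev.exists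
  refine ⟨addArc A' (short ρ ε hρ hε hε'), rep_add hA' hρ hε hε' hne,
    count hn (fun u v h => keep hρ hε hε' (hg u v h)) fun i hi => ?_⟩
  refine between hA' hρ hε hε' hb i (hne i) ?_
  rcases Nat.lt_or_ge k i with h | h
  · -- outer
    have hs : {j : Fin n | j ≠ i ∧ (A' j).r ∈ Set.uIcc ρ (A' i).r} ⊆
        ((Finset.Ioo i0 i : Finset (Fin n)) : Set (Fin n)) := by
      rintro j ⟨hj, hj'⟩
      rw [Set.uIcc_of_le (high i h).le] at hj'
      rw [Finset.mem_coe, Finset.mem_Ioo]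
      refine ⟨?_, lt_of_le_of_ne (hmono.le_iff_le.1 hj'.2) hj⟩
      by_contra hle
      exact absurd (low j (show (j : ℕ) ≤ k from not_lt.1 hle)) (not_lt.2 hj'.1)
    refine (Set.encard_le_encard hs).trans ?_
    rw [Set.encard_coe_eq_coe_finsetCard, Fin.card_Ioo]
    have : (i : ℕ) - (i0 : ℕ) - 1 ≤ k := by
      rw [hi0]
      show (i : ℕ) - k - 1 ≤ k
      omega
    exact_mod_cast this
  · have hs : {j : Fin n | j ≠ i ∧ (A' j).r ∈ Set.uIcc ρ (A' i).r} ⊆
        ((Finset.Ioc i i0 : Finset (Fin n)) : Set (Fin n)) := by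
      rintro j ⟨hj, hj'⟩
      rw [Set.uIcc_of_ge (low i h).le] at hj'
      rw [Finset.mem_coe, Finset.mem_Ioc]
      refine ⟨lt_of_le_of_ne (hmono.le_iff_le.1 hj'.1) hj.symm, ?_⟩
      by_contra hle
      have h5 : k < (j : ℕ) := by
        have := not_le.1 hle
        exact this
      exact absurd (high j h5) (not_lt.2 hj'.2)
    refine (Set.encard_le_encard hs).trans ?_
    rw [Set.encard_coe_eq_coe_finsetCard, Fin.card_Ioc]
    have : (i0 : ℕ) - (i : ℕ) ≤ k := by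
      rw [hi0]
      show k - (i : ℕ) ≤ k
      omega
    exact_mod_cast this

/-- positive length from visibility -/
lemma pos_of_vis {V : Type} {k : ℕ} {A : V → Arc} (h0 : ∀ v, (A v).a = 0) {u v : V}
    (h : KVisible k A u v) : 0 < (A u).b := by
  obtain ⟨s, t, c, d, hs, -, -, hcd, hdc, h1, -, -⟩ := h
  by_contra hb
  have hb' : (A u).b = 0 := le_antisymm (not_lt.1 hb) (by have := (A u).hab; rwa [h0 u] at this)
  have m1 : pt s c ∈ (A u).carrier := h1 ⟨c, ⟨le_rfl, hcd.le⟩, rfl⟩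
  have m2 : pt s d ∈ (A u).carrier := h1 ⟨d, ⟨hcd.le, le_rfl⟩, rfl⟩
  obtain ⟨φ, hφ, e1⟩ := m1
  obtain ⟨φ', hφ', e2⟩ := m2
  rw [h0 u, hb'] at hφ hφ'
  have z1 : φ = 0 := le_antisymm hφ.2 hφ.1
  have z2 : φ' = 0 := le_antisymm hφ'.2 hφ'.1
  subst z1
  subst z2
  obtain ⟨l1, hl1⟩ := pt_dir (A u).hr e1
  obtain ⟨l2, hl2⟩ := pt_dir (A u).hr e2
  have hpi := Real.pi_pos
  have e3 : (0 : ℝ) < ((l2 - l1 : ℤ) : ℝ) := by
    have : (0 : ℝ) * Real.pi < ((l2 - l1 : ℤ) : ℝ) * Real.pi := by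
      push_cast; rw [zero_mul, sub_mul, hl1, hl2]; linarith
    exact lt_of_mul_lt_mul_right this hpi.le
  have e4 : ((l2 - l1 : ℤ) : ℝ) < 1 := by
    have : ((l2 - l1 : ℤ) : ℝ) * Real.pi < 1 * Real.pi := by
      push_cast; rw [sub_mul, hl1, hl2]; linarith
    exact lt_of_mul_lt_mul_right this hpi.le
  have e5 : 0 < l2 - l1 := by exact_mod_cast e3
  have e6 : l2 - l1 < 1 := by exact_mod_cast e4
  omega

theorem base (k : ℕ) : ∃ A : Fin (3 * k + 4) → Arc, Rep A ∧
    (3 * k + 4).choose 2 ≤ (vg k A).edgeSet.ncard := by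
  obtain ⟨A, h0, hd, hv⟩ := Pool.Agent.Results.MP_e2d93f_co.AllK.result k
  have hall : ∀ u v, u ≠ v → KVisible k A u v := fun u v huv => (hv u v huv).1 (by
    rw [SimpleGraph.top_adj]; exact huv)
  refine ⟨A, ⟨h0, hd, fun v => ?_⟩, ?_⟩
  · obtain ⟨w, hw⟩ := exists_ne v
    exact pos_of_vis h0 (hall v w hw.symm)
  · have htop : vg k A = ⊤ := by
      ext u v
      rw [SimpleGraph.top_adj]
      exact ⟨fun h => h.1, fun h => ⟨h, hall u v h⟩⟩
    rw [htop]
    classical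
    rw [← SimpleGraph.coe_edgeFinset, Set.ncard_coe_finset,
      SimpleGraph.card_edgeFinset_top_eq_card_choose_two]
    simp

theorem lower_add (k m : ℕ) : ∃ A : Fin (3 * k + 4 + m) → Arc, Rep A ∧
    (3 * k + 4).choose 2 + (2 * k + 2) * m ≤ (vg k A).edgeSet.ncard := by
  induction m with
  | zero => simpa using base k
  | succ m ih =>
    obtain ⟨A, hA, h1⟩ := ih
    obtain ⟨B, hB, h2⟩ := step (k := k) hA (by omega)
    refine ⟨B, hB, le_trans ?_ h2⟩
    rw [mul_add, mul_one, ← add_assoc]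
    exact Nat.add_le_add_right h1 _

/-- For all `k` and all `n ≥ 3k+4` some semi-arc `k`-visibility graph on `n` vertices has at least
`(k+1)` edges more than conjectured. -/
theorem all (k n : ℕ) (h : 3 * k + 4 ≤ n) : ∃ G : SimpleGraph (Fin n), IsSemiArcVisibility k G ∧
    ((k : ℚ) + 1) * (2 * n - (3 * k + 6) / 2) + (k + 1) ≤ (G.edgeSet.ncard : ℕ) := by
  obtain ⟨m, rfl⟩ := Nat.exists_eq_add_of_le h
  obtain ⟨A, hA, h1⟩ := lower_add k m
  refine ⟨vg k A, hA.isSemiArc k, ?_⟩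
  have h2 : (((3 * k + 4).choose 2 + (2 * k + 2) * m : ℕ) : ℚ) ≤ ((vg k A).edgeSet.ncard : ℕ) := by
    exact_mod_cast h1
  rw [Nat.cast_add, Nat.cast_choose_two] at h2
  push_cast at h2 ⊢
  linarith

end Pool.Agent.V7H84.SA
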